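import Mathlib

namespace Pool.Agent.H.MP_215185_al

open Set unitInterval
open scoped commutatorElement

/-- piecewise linear with finitely many breakpoints -/
def PL (f : I ≃o I) : Prop :=
  ∃ B : Finset ℝ, ∀ a b : I, (∀ x ∈ B, x ∉ Ioo (a : ℝ) b) → ∃ m c : ℝ, ∀ x ∈ Icc a b, (f x : ℝ) = m * x + c

theorem PL.left {f : I ≃o I} (h : PL f) {p e : I} (k : p < e) : ∃ q ∈ Ico p e, ∃ m c : ℝ, ∀ x ∈ Icc q e, (f x : ℝ) = m * x + c := by
  obtain ⟨B, h⟩ := h
  obtain ⟨q, a, b⟩ := (insert (p : ℝ) (B.filter (· < (e : ℝ)))).exists_max_image id (by simp)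
  have c : (p : ℝ) ≤ q := b _ (by simp)
  have d : q < e := by rcases Finset.mem_insert.1 a with rfl | a; exacts [k, (Finset.mem_filter.1 a).2]
  exact ⟨⟨q, p.2.1.trans c, d.le.trans e.2.2⟩, ⟨c, d⟩, h _ _ fun x i j => j.1.not_ge (b x (by simp [i, j.2]))⟩

variable {f g u v : I ≃o I}

theorem ap (f g : I ≃o I) (x : I) : (f * g) x = f (g x) := rfl
theorem ap_inv (f : I ≃o I) (x : I) : f (f⁻¹ x) = x := f.apply_symm_apply x
theorem inv_ap (f : I ≃o I) (x : I) : f⁻¹ (f x) = x := f.symm_apply_apply x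
theorem cap (h : Commute f g) (x : I) : f (g x) = g (f x) := congrArg (· x) h.eq
theorem inv_fix {x : I} (h : f x = x) : f⁻¹ x = x := f.injective (by rw [ap_inv, h])
theorem pow_fix {x : I} (h : f x = x) (n : ℕ) : (f ^ n) x = x := by
  induction n with
  | zero => rfl
  | succ n ih => rw [pow_succ, ap, h, ih]

theorem f1 (hf : PL f) (h : Commute f g) {e : I} (k : f e = e) : ∀ x ∈ uIcc e (g e), f x = x := by
  have : ∀ g e, Commute f g → f e = e → e < g e → ∀ x ∈ Icc e (g e), f x = x := fun g e h k l x a => by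
    have m : StrictMono fun n : ℕ => (g ^ n) e := strictMono_nat_of_lt_succ fun n => by rw [pow_succ, ap]; exact (g ^ n).strictMono l
    have s : ∀ n : ℕ, (g ^ n) e ≤ ⨆ n : ℕ, (g ^ n) e := le_iSup fun n : ℕ => (g ^ n) e
    obtain ⟨q, b, c, d, i⟩ := hf.left ((m one_pos).trans_le (s 1))
    obtain ⟨n, j⟩ := lt_iSup_iff.1 b.2
    have t : ∀ n : ℕ, f ((g ^ n) e) = (g ^ n) e := fun n => by rw [cap (h.pow_right n), k]
    have o := m n.lt_succ_self
    have h1 := i _ ⟨j.le, s n⟩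
    have h2 := i _ ⟨(j.trans o).le, s (n + 1)⟩
    have h3 := i ((g ^ n) x) ⟨j.le.trans ((g ^ n).monotone a.1), ((g ^ n).monotone a.2).trans (s (n + 1))⟩
    rw [t] at h1 h2
    have : c = 1 := mul_right_cancel₀ (sub_ne_zero.2 (Subtype.coe_lt_coe.2 o).ne') (by linarith)
    refine (g ^ n).injective ((cap (h.pow_right n) x).symm.trans (Subtype.ext ?_))
    rw [this] at h1 h3
    linarith
  rcases lt_trichotomy e (g e) with l | l | l
  · exact uIcc_of_le l.le ▸ this g e h k l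
  · simpa [← l]
  · simpa [uIcc_of_ge l.le, inv_ap] using this g⁻¹ (g e) h.inv_right (by rw [cap h, k]) (by rwa [inv_ap])

theorem inf_fix {S : Set I} (h : ∀ y ∈ S, f y = y) : f (sInf S) = sInf S :=
  (f.map_sInf S).trans ((iInf_congr fun y => iInf_congr (h y)).trans sInf_eq_iInf.symm)
theorem sup_fix {S : Set I} (h : ∀ y ∈ S, f y = y) : f (sSup S) = sSup S :=
  (f.map_sSup S).trans ((iSup_congr fun y => iSup_congr (h y)).trans sSup_eq_iSup.symm)

/-- the next fixed point -/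
noncomputable def nx (f : I ≃o I) (x : I) : I := sInf {y | x ≤ y ∧ f y = y}

theorem nx_fix (x : I) : f (nx f x) = nx f x := inf_fix fun _ a => a.2
theorem le_nx (x : I) : x ≤ nx f x := le_sInf fun _ a => a.1
theorem nx_le {x y : I} (h : x ≤ y) (k : f y = y) : nx f x ≤ y := sInf_le ⟨h, k⟩

theorem f2 (hf : PL f) (h : Commute f g) {x : I} (k : f x ≠ x) : g (nx f x) = nx f x := by
  have : ∀ g, Commute f g → nx f x ≤ g (nx f x) := fun g h => not_lt.1 fun a => by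
    have := f1 hf h (nx_fix x)
    rw [uIcc_of_ge a.le] at this
    rcases le_total x (g (nx f x)) with b | b
    exacts [a.not_ge (nx_le b (this _ ⟨le_rfl, a.le⟩)), k (this x ⟨b, le_nx x⟩)]
  exact le_antisymm (by simpa [ap_inv] using g.monotone (this _ h.inv_right)) (this g h)

theorem f3 {a b : I ≃o I} (ha : PL a) (hb : PL b) (hv : PL v) (h : Commute v a) (k : Commute v b) (x : I) : ((b * a)⁻¹ * (a * b)) x = x ∨ v x = x := by
  refine or_iff_not_imp_right.2 fun l => ?_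
  have e1 := f2 hv h l
  have e2 := f2 hv k l
  have e0 : x < nx v x := (le_nx x).lt_of_ne fun d => l (by rw [d, nx_fix])
  have e3 : ∀ y, x ≤ y → v y = y → nx v x ≤ y := fun _ => nx_le
  have e4 := nx_fix (f := v) x
  generalize nx v x = e at *
  obtain ⟨p, i, m, c, h1⟩ := ha.left e0
  obtain ⟨q, j, m', c', h2⟩ := hb.left i.2
  have : ∀ w, Commute w ((b * a)⁻¹ * (a * b)) → (∀ y, w y = y → v y = y) → w e = e → x < w x → ((b * a)⁻¹ * (a * b)) x = x := fun w n o o' r => by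
    have mo : Monotone fun n : ℕ => (w ^ n) x := monotone_nat_of_le_succ fun n => by rw [pow_succ, ap]; exact (w ^ n).monotone r.le
    have s : ∀ n : ℕ, (w ^ n) x ≤ ⨆ n : ℕ, (w ^ n) x := le_iSup fun n : ℕ => (w ^ n) x
    have t : w (⨆ n : ℕ, (w ^ n) x) = ⨆ n : ℕ, (w ^ n) x := by
      rw [w.map_iSup, ← mo.iSup_nat_add 1]; simp only [pow_succ', ap]
    have z : max q (max (a⁻¹ q) (b⁻¹ q)) < e := max_lt j.2 (max_lt (inv_fix e1 ▸ a⁻¹.strictMono j.2) (inv_fix e2 ▸ b⁻¹.strictMono j.2))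
    obtain ⟨n', z⟩ := lt_iSup_iff.1 (z.trans_le (e3 _ (s 0) (o _ t)))
    have y1 : (w ^ n') x ≤ e := pow_fix o' n' ▸ (w ^ n').monotone e0.le
    refine (w ^ n').injective ((cap (n.pow_left n') x).trans ?_)
    generalize (w ^ n') x = y at z y1
    simp only [max_lt_iff] at z
    have y2 := h1 y ⟨j.1.trans z.1.le, y1⟩
    have y3 := h2 y ⟨z.1.le, y1⟩
    have y4 := h1 (b y) ⟨j.1.trans (ap_inv b q ▸ b.monotone z.2.2.le), e2 ▸ b.monotone y1⟩
    have y5 := h2 (a y) ⟨ap_inv a q ▸ a.monotone z.2.1.le, e1 ▸ a.monotone y1⟩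
    have y6 := h1 e ⟨i.2.le, le_rfl⟩
    have y7 := h2 e ⟨j.2.le, le_rfl⟩
    rw [e1] at y6
    rw [e2] at y7
    rw [ap, ap, show a (b y) = (b * a) y from Subtype.ext (by rw [ap, y4, y5, y2, y3]; linear_combination (m - 1) * -y7 + (m' - 1) * y6), inv_ap]
  have n := (k.mul_right h).inv_right.mul_right (h.mul_right k)
  rcases lt_or_gt_of_ne l with r | r
  · exact this v⁻¹ n.inv_left (fun y d => inv_fix (f := v⁻¹) d) (inv_fix e4) (by simpa [inv_ap] using v⁻¹.strictMono r)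
  · exact this v n (fun _ => id) e4 r

theorem ni {r t : I ≃o I} {p q : I} (hu : PL u) (hz : PL (r * v * r⁻¹)) (d : ∀ x, u x = x ∨ v x = x) (h0 : Commute u v) (h1 : Commute u r)
    (h2 : Commute (r * v * r⁻¹) v) (h3 : Commute (r * v * r⁻¹) t) (k : ∀ y, p < y → y < q → ¬ (u y = y ∧ v y = y ∧ t y = y)) {a b c : I}
    (ha : p ≤ a) (hc : c < q) (ab : a < b) (bc : b < c) (a' : u a ≠ a) (b' : v b ≠ b) (c' : u c ≠ c) : False := by
  have e := f1 hu h1 ((d b).resolve_right b')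
  have e1 : a < r b := not_le.1 fun i => a' (e a (mem_uIcc.2 (.inr ⟨i, ab.le⟩)))
  have e2 : r b < c := not_le.1 fun i => c' (e c (mem_uIcc.2 (.inl ⟨bc.le, i⟩)))
  have e3 : (r * v * r⁻¹) (r b) ≠ r b := by simpa [ap, inv_ap]
  have e4 : (r * v * r⁻¹) c = c := by
    rw [ap, ap, (d _).resolve_left fun i => c' (r⁻¹.injective ((cap h1.inv_right c).symm.trans i)), ap_inv]
  exact k _ ((ha.trans_lt e1).trans_le (le_nx _)) ((nx_le e2.le e4).trans_lt hc)
    ⟨f2 hz ((h1.mul_right h0).mul_right h1.inv_right).symm e3, f2 hz h2 e3, f2 hz h3 e3⟩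

theorem key {r r' t : I ≃o I} (hu : PL u) (hv : PL v) (hz : PL (r * v * r⁻¹)) (hz' : PL (r' * u * r'⁻¹)) (d : ∀ x, u x = x ∨ v x = x)
    (h0 : Commute u v) (h1 : Commute u r) (h2 : Commute (r * v * r⁻¹) v) (h3 : Commute (r * v * r⁻¹) t) (h4 : Commute v r')
    (h5 : Commute (r' * u * r'⁻¹) u) (h6 : Commute (r' * u * r'⁻¹) t) : Commute ⁅t * u * t⁻¹, v⁆ ⁅t⁻¹ * u * t, v⁆ := by
  refine RelIso.ext fun x => ?_
  obtain ⟨p, hp⟩ : ∃ p, p = sSup {y | y ≤ x ∧ u y = y ∧ v y = y ∧ t y = y} := ⟨_, rfl⟩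
  obtain ⟨q, hq⟩ : ∃ p, p = sInf {y | x ≤ y ∧ u y = y ∧ v y = y ∧ t y = y} := ⟨_, rfl⟩
  have k : ∀ y, p < y → y < q → ¬ (u y = y ∧ v y = y ∧ t y = y) := fun y a b c => (le_total y x).elim
    (fun e => a.not_ge (hp ▸ le_sSup ⟨e, c⟩)) fun e => b.not_ge (hq ▸ sInf_le ⟨e, c⟩)
  have hx : x ∈ Icc p q := ⟨hp ▸ sSup_le fun _ a => a.1, hq ▸ le_sInf fun _ a => a.1⟩
  let S : Subgroup (I ≃o I) := MulAction.stabilizer _ p ⊓ MulAction.stabilizer _ q
  have mu : u ∈ S := ⟨hp ▸ sup_fix fun _ a => a.2.1, hq ▸ inf_fix fun _ a => a.2.1⟩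
  have mv : v ∈ S := ⟨hp ▸ sup_fix fun _ a => a.2.2.1, hq ▸ inf_fix fun _ a => a.2.2.1⟩
  have mt : t ∈ S := ⟨hp ▸ sup_fix fun _ a => a.2.2.2, hq ▸ inf_fix fun _ a => a.2.2.2⟩
  have iv : ∀ f ∈ S, ∀ y ∈ Icc p q, f y ∈ Icc p q := fun f a y b =>
    ⟨(show f p = p from a.1) ▸ f.monotone b.1, (show f q = q from a.2) ▸ f.monotone b.2⟩
  have lt : ∀ f ∈ S, ∀ y ∈ Icc p q, f y ≠ y → y < q := fun f a y b c => b.2.lt_of_ne fun e => c (e ▸ a.2)
  have cm : ∀ f ∈ S, ∀ g ∈ S, (∀ y ∈ Icc p q, f y = y) → f (g x) = g (f x) := fun f _ g b c => by rw [c x hx, c _ (iv g b x hx)]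
  have tr : ∀ s ∈ S, (∀ y ∈ Icc p q, ⁅s * u * s⁻¹, v⁆ y = y) ∨ ∃ a ∈ Icc p q, u a ≠ a ∧ v (s a) ≠ s a := fun s a => or_iff_not_imp_right.2 fun b y c => by
    have m := mul_mem (mul_mem a mu) (inv_mem a)
    have : ∀ y ∈ Icc p q, (s * u * s⁻¹) y = y ∨ v y = y := fun y c => by_contra fun e => b ⟨s⁻¹ y, iv _ (inv_mem a) y c, fun i =>
      e (.inl (by rw [ap, ap, i, ap_inv])), fun i => e (.inr (by rwa [ap_inv] at i))⟩
    generalize s * u * s⁻¹ = f at m this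
    have e := iv _ (inv_mem m) _ (iv _ (inv_mem mv) y c)
    rw [commutatorElement_def, ap, ap, ap]
    have : f (v (f⁻¹ (v⁻¹ y))) = v (f (f⁻¹ (v⁻¹ y))) := by
      generalize f⁻¹ (v⁻¹ y) = w at e
      rcases this w e with i | i
      · rcases this _ (iv v mv w e) with j | j
        · rw [i, j]
        · rw [v.injective j, i, v.injective j]
      · rcases this _ (iv f m w e) with j | j
        · rw [f.injective j, i, f.injective j]
        · rw [i, j]
    rw [this, ap_inv, ap_inv]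
  have m : ∀ s ∈ S, ⁅s * u * s⁻¹, v⁆ ∈ S := fun s a => by
    have m := mul_mem (mul_mem a mu) (inv_mem a)
    exact mul_mem (mul_mem (mul_mem m mv) (inv_mem m)) (inv_mem mv)
  have m' := m _ (inv_mem mt)
  have tr' := tr _ (inv_mem mt)
  rw [inv_inv] at m' tr'
  rw [ap, ap]
  rcases tr t mt with a | ⟨a, i, a1, a2⟩
  · exact cm _ (m t mt) _ m' a
  rcases tr' with b | ⟨b, j, b1, b2⟩
  · exact (cm _ m' _ (m t mt) b).symm
  have nn : ∀ a ∈ Icc p q, ∀ b ∈ Icc p q, ∀ a' ∈ Icc p q, ∀ b' ∈ Icc p q, u a ≠ a → v b ≠ b → u a' ≠ a' → v b' ≠ b' → a < b → ¬ b' < a' :=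
    fun a i b j a' i' b' j' c e c' e' l l' => by
      rcases lt_trichotomy a b' with o | rfl | o
      · exact ni hu hz d h0 h1 h2 h3 k i.1 (lt u mu _ i' c') o l' c e' c'
      · exact (d a).elim c e'
      · exact ni hv hz' (fun x => (d x).symm) h0.symm h4 h5 h6 (fun y a b c => k y a b ⟨c.2.1, c.1, c.2.2⟩) j'.1 (lt v mv _ j e) o l e' c e
  have i' := iv t mt a i
  have j' := iv _ (inv_mem mt) b j
  rcases lt_trichotomy a (t⁻¹ b) with o | rfl | o
  · exact (nn _ i _ j' _ j _ i' a1 b2 b1 a2 o (by simpa [ap_inv] using t.strictMono o)).elim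
  · exact ((d _).elim a1 b2).elim
  · exact (nn _ j _ i' _ i _ j' b1 a2 a1 b2 (by simpa [ap_inv] using t.strictMono o) o).elim

end Pool.Agent.H.MP_215185_al
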