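import Mathlib
import Pool.Agent.H.MP_215185_al.A

namespace Pool.Agent.H.MP_215185_al

open unitInterval
open scoped commutatorElement

def s (i k : ℕ) : Equiv.Perm (ℕ × ℕ) where
  toFun p := if p.1 < i then p else if p.1 = i then (i + p.2 % (k + 1), p.2 / (k + 1)) else (p.1 + k, p.2)
  invFun p := if p.1 < i then p else if p.1 ≤ i + k then (i, (k + 1) * p.2 + (p.1 - i)) else (p.1 - k, p.2)
  left_inv p := by
    have := Nat.mod_lt p.2 (Nat.add_one_pos k)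
    have := Nat.div_add_mod p.2 (k + 1)
    dsimp only
    split_ifs <;> ext <;> dsimp only at * <;> omega
  right_inv p := by
    dsimp only
    split_ifs with a b c d <;> ext <;> dsimp only at * <;> first | omega | skip
    · rw [Nat.mul_add_mod, Nat.mod_eq_of_lt (by omega)]; omega
    · rw [Nat.mul_add_div (Nat.add_one_pos k), Nat.div_eq_of_lt (by omega)]; rfl

theorem s_sq (i j k l : ℕ) (h : i < j) : s (j + k) l * s i k = s i k * s j l := Equiv.ext fun p => by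
  have := Nat.mod_lt p.2 (Nat.add_one_pos k)
  simp only [s, Equiv.Perm.mul_apply, Equiv.coe_fn_mk]
  split_ifs <;> ext <;> dsimp only at * <;> omega

variable {G : Type} [Group G] (A : ℕ → ℕ → G)

def Sh (g : G) (n m : ℕ) : Prop := ∀ j l, l = 1 ∨ l = 2 → g * A (n + j) l = A (m + j) l * g

variable {A}

theorem Sh.mul {g h : G} {n m o : ℕ} (a : Sh A g m o) (b : Sh A h n m) : Sh A (g * h) n o := fun j l c => by
  rw [mul_assoc, b j l c, ← mul_assoc, a j l c, mul_assoc]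
theorem Sh.inv {g : G} {n m : ℕ} (a : Sh A g n m) : Sh A g⁻¹ m n := fun j l c => by
  rw [inv_mul_eq_iff_eq_mul, ← mul_assoc, a j l c, mul_inv_cancel_right]
theorem Sh.comm {g : G} {n : ℕ} (a : Sh A g n n) (j l : ℕ) (h : n ≤ j ∧ (l = 1 ∨ l = 2)) : Commute g (A j l) := by
  simpa [h.1, commute_iff_eq] using a (j - n) l h.2

variable (hA : ∀ {i j k l}, i < j → k = 1 ∨ k = 2 → l = 1 ∨ l = 2 → A (j + k) l * A i k = A i k * A j l)
include hA

theorem sh (i k n m : ℕ) (h : i < n ∧ m = n + k ∧ (k = 1 ∨ k = 2)) : Sh A (A i k) n m := fun j l c => by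
  rw [← hA (by omega) h.2.2 c, h.2.1, add_right_comm]

theorem main (Φ : G →* Equiv.Perm (ℕ × ℕ)) (k : ∀ i k, k = 1 ∨ k = 2 → Φ (A i k) = s i k) :
    ∃ g : G, g ≠ 1 ∧ ∀ φ : G →* (I ≃o I), (∀ d, PL (φ d)) → φ g = 1 := by
  let l : ℕ → ℕ → G := fun i j => (A i 1)⁻¹ * ((A j 1)⁻¹ * A i 2)
  let a := (A 1 1)⁻¹ * (l 1 1 * A 1 1)
  let b := (A 1 1)⁻¹ * (l 1 2 * A 1 1)
  let u := (b * a)⁻¹ * (a * b)
  let v := (A 2 1)⁻¹ * (l 3 3 * A 2 1)
  let t := A 1 1 * (l 1 1 * (l 1 1 * (A 1 1)⁻¹))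
  let r := (A 3 1)⁻¹ * A 2 1
  let r' := (A 0 1)⁻¹ * A 1 1
  refine ⟨⁅⁅t * u * t⁻¹, v⁆, ⁅t⁻¹ * u * t, v⁆⁆, fun h => ?_, fun φ h => ?_⟩
  · have := congrArg (Φ · (1, 7)) h
    simp only [t, u, v, a, b, l, map_mul, map_inv, map_one, k _ _ (.inl rfl), k _ _ (.inr rfl), commutatorElement_def] at this
    revert this
    decide +kernel
  have l1 : ∀ i j n, i < n ∧ j ≤ n → Sh A (l i j) n n := fun i j n h =>
    (sh hA i 1 n _ ⟨h.1, rfl, .inl rfl⟩).inv.mul ((sh hA j 1 (n + 1) _ ⟨by omega, rfl, .inl rfl⟩).inv.mul (sh hA i 2 n _ ⟨h.1, rfl, .inr rfl⟩))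
  have ha : ∀ n j, 1 < n ∧ j ≤ n + 1 → Sh A ((A 1 1)⁻¹ * (l 1 j * A 1 1)) n n := fun n j h =>
    (sh hA 1 1 n _ ⟨h.1, rfl, .inl rfl⟩).inv.mul ((l1 1 j _ (by omega)).mul (sh hA 1 1 n _ ⟨h.1, rfl, .inl rfl⟩))
  have hu : Sh A u 2 2 := ((ha 2 2 (by decide)).mul (ha 2 1 (by decide))).inv.mul ((ha 2 1 (by decide)).mul (ha 2 2 (by decide)))
  have cl : ∀ {g n} (h : Sh A g n n) i j, n ≤ i ∧ n ≤ j → Commute g (l i j) := fun h i j k =>
    (h.comm i 1 ⟨k.1, .inl rfl⟩).inv_right.mul_right ((h.comm j 1 ⟨k.2, .inl rfl⟩).inv_right.mul_right (h.comm i 2 ⟨k.1, .inr rfl⟩))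
  have cv : ∀ {g}, Sh A g 2 2 → Commute g v := fun h => (h.comm 2 1 (by decide)).inv_right.mul_right ((cl h 3 3 (by decide)).mul_right (h.comm 2 1 (by decide)))
  have cz : ∀ {g}, Sh A g 3 3 → Commute (r * v * r⁻¹) g := fun h => by
    rw [show r * v * r⁻¹ = (A 3 1)⁻¹ * (l 3 3 * A 3 1) by simp only [r, v]; group]
    exact ((h.comm 3 1 (by decide)).inv_right.mul_right ((cl h 3 3 (by decide)).mul_right (h.comm 3 1 (by decide)))).symm
  have hz : Sh A (r' * u * r'⁻¹) 1 1 := by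
    have : ∀ j ≤ 2, Sh A (r' * ((A 1 1)⁻¹ * (l 1 j * A 1 1)) * r'⁻¹) 1 1 := fun j h => by
      rw [show r' * ((A 1 1)⁻¹ * (l 1 j * A 1 1)) * r'⁻¹ = (A 0 1)⁻¹ * (l 1 j * A 0 1) by simp only [r']; group]
      exact (sh hA 0 1 1 2 (by decide)).inv.mul ((l1 1 j 2 ⟨by decide, h⟩).mul (sh hA 0 1 1 2 (by decide)))
    convert ((this 2 le_rfl).mul (this 1 one_le_two)).inv.mul ((this 1 one_le_two).mul (this 2 le_rfl)) using 1
    simp only [u, a, b]; group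
  have ca : ∀ j, 1 ≤ j → Commute (r' * u * r'⁻¹) ((A 1 1)⁻¹ * (l 1 j * A 1 1)) := fun j h =>
    (hz.comm 1 1 (by decide)).inv_right.mul_right ((cl hz 1 j ⟨le_rfl, h⟩).mul_right (hz.comm 1 1 (by decide)))
  have cj : ∀ {x y z : G}, Commute (x * y * x⁻¹) z → Commute (φ x * φ y * (φ x)⁻¹) (φ z) := fun h => by simpa using h.map φ
  have := key (u := φ u) (v := φ v) (r := φ r) (r' := φ r') (t := φ t) (h _) (h _) (by simpa using h (r * v * r⁻¹)) (by simpa using h (r' * u * r'⁻¹))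
    (by simpa [u] using f3 (h a) (h b) (h v) ((cv (ha 2 1 (by decide))).symm.map φ) ((cv (ha 2 2 (by decide))).symm.map φ)) ((cv hu).map φ)
    (((hu.comm 3 1 (by decide)).inv_right.mul_right (hu.comm 2 1 (by decide))).map φ)
    (cj (cz ((sh hA 2 1 3 4 (by decide)).inv.mul ((l1 3 3 4 (by decide)).mul (sh hA 2 1 3 4 (by decide))))))
    (cj (cz ((sh hA 1 1 2 3 (by decide)).mul ((l1 1 1 2 (by decide)).mul ((l1 1 1 2 (by decide)).mul (sh hA 1 1 2 3 (by decide)).inv)))))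
    ((cv ((sh hA 0 1 2 3 (by decide)).inv.mul (sh hA 1 1 2 3 (by decide)))).symm.map φ)
    (cj (((ca 2 one_le_two).mul_right (ca 1 le_rfl)).inv_right.mul_right ((ca 1 le_rfl).mul_right (ca 2 one_le_two))))
    (cj ((hz.comm 1 1 (by decide)).mul_right ((cl hz 1 1 (by decide)).mul_right ((cl hz 1 1 (by decide)).mul_right (hz.comm 1 1 (by decide)).inv_right))))
  simpa using commutatorElement_eq_one_iff_commute.2 this

end Pool.Agent.H.MP_215185_al
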